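import Pool.Agent.H98.KS.Targets1

/-! W2: the second coefficient of a polynomial with large Weyl sum. -/

set_option autoImplicit false

open scoped BigOperators
open Pool.Agent.H98.KS Finset

noncomputable section

namespace Pool.Agent.H66.KS

theorem ee_norm (x : ℝ) : ‖ee x‖ = 1 := by
  have h := Complex.norm_exp_ofReal_mul_I (2 * Real.pi * x)
  unfold ee
  push_cast at h
  exact h

theorem ee_add (x y : ℝ) : ee (x + y) = ee x * ee y := by
  unfold ee
  rw [← Complex.exp_add]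
  congr 1
  push_cast
  ring

theorem ee_int (n : ℤ) : ee (n : ℝ) = 1 := by
  unfold ee
  rw [← Complex.exp_int_mul_two_pi_mul_I n]
  congr 1
  push_cast
  ring

theorem ee_lip (x y : ℝ) : ‖ee x - ee y‖ ≤ 2 * Real.pi * |x - y| := by
  have h1 : ee x = ee y * ee (x - y) := by rw [← ee_add]; congr 1; ring
  have h2 : ee x - ee y = ee y * (ee (x - y) - 1) := by rw [h1]; ring
  rw [h2, norm_mul, ee_norm, one_mul]
  have h3 := Real.norm_exp_I_mul_ofReal_sub_one_le (x := 2 * Real.pi * (x - y))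
  have h4 : Complex.exp (Complex.I * ((2 * Real.pi * (x - y) : ℝ) : ℂ)) = ee (x - y) := by
    unfold ee
    congr 1
    push_cast
    ring
  rw [h4, Real.norm_eq_abs, abs_mul, abs_of_pos (by positivity : 0 < 2 * Real.pi)] at h3
  exact h3

theorem shift (f : ℕ → ℂ) (hf : ∀ x, ‖f x‖ ≤ 1) (n t : ℕ) :
    ‖∑ x ∈ range n, f x - ∑ x ∈ range n, f (x + t)‖ ≤ 2 * t := by
  have h : ∑ x ∈ range t, f x + ∑ x ∈ range n, f (t + x) =
      ∑ x ∈ range n, f x + ∑ x ∈ range t, f (n + x) := by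
    rw [← sum_range_add, ← sum_range_add, add_comm]
  have h2 : ∑ x ∈ range n, f (x + t) = ∑ x ∈ range n, f (t + x) :=
    sum_congr rfl fun x _ => by rw [add_comm]
  have h3 : ∑ x ∈ range n, f x - ∑ x ∈ range n, f (x + t) =
      ∑ x ∈ range t, f x - ∑ x ∈ range t, f (n + x) := by
    rw [h2, sub_eq_sub_iff_add_eq_add, ← h, add_comm]
  rw [h3]
  have h4 : ∀ g : ℕ → ℂ, (∀ x, ‖g x‖ ≤ 1) → ‖∑ x ∈ range t, g x‖ ≤ t := by
    intro g hg
    refine (norm_sum_le _ _).trans ?_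
    calc ∑ x ∈ range t, ‖g x‖ ≤ ∑ x ∈ range t, (1 : ℝ) := sum_le_sum fun x _ => hg x
      _ = t := by simp
  calc _ ≤ ‖∑ x ∈ range t, f x‖ + ‖∑ x ∈ range t, f (n + x)‖ := norm_sub_le _ _
    _ ≤ t + t := add_le_add (h4 _ hf) (h4 _ fun x => hf _)
    _ = 2 * t := by ring

theorem avg (f : ℕ → ℂ) (hf : ∀ x, ‖f x‖ ≤ 1) (n h Q : ℕ) (L δ : ℝ) (hδ : 0 < δ) (hL : 0 < L)
    (hn : (n : ℝ) ≤ L) (hh : 1 ≤ h) (hQ : 4 * ((Q : ℝ) * h) ≤ δ * L)
    (hs : δ * L ≤ ‖∑ x ∈ range n, f x‖) :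
    ∃ x ∈ range n, δ / 2 * h ≤ ‖∑ s ∈ range h, f (x + Q * s)‖ := by
  have hn0 : (range n).Nonempty := by
    rw [nonempty_range_iff]
    rintro rfl
    rw [range_zero, sum_empty, norm_zero] at hs
    have := mul_pos hδ hL
    linarith
  apply exists_le_of_sum_le hn0
  rw [sum_const, card_range, nsmul_eq_mul]
  have hh0 : (0 : ℝ) < h := by exact_mod_cast hh
  have h1 : (h : ℝ) * ‖∑ x ∈ range n, f x‖ ≤ h * (2 * (Q * h)) +
      ∑ x ∈ range n, ‖∑ s ∈ range h, f (x + Q * s)‖ := by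
    have e1 : (h : ℂ) * ∑ x ∈ range n, f x =
        ∑ s ∈ range h, (∑ x ∈ range n, f x - ∑ x ∈ range n, f (x + Q * s)) +
          ∑ x ∈ range n, ∑ s ∈ range h, f (x + Q * s) := by
      rw [sum_sub_distrib, sum_const, card_range, nsmul_eq_mul, sum_comm (s := range n)]
      ring
    have e2 : (h : ℝ) * ‖∑ x ∈ range n, f x‖ = ‖(h : ℂ) * ∑ x ∈ range n, f x‖ := by
      rw [norm_mul, Complex.norm_natCast]
    rw [e2, e1]
    refine (norm_add_le _ _).trans (add_le_add ?_ (norm_sum_le _ _))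
    refine (norm_sum_le _ _).trans ?_
    calc ∑ s ∈ range h, ‖∑ x ∈ range n, f x - ∑ x ∈ range n, f (x + Q * s)‖
        ≤ ∑ s ∈ range h, 2 * ((Q : ℝ) * h) := by
          refine sum_le_sum fun s hs => ?_
          refine (shift f hf n (Q * s)).trans ?_
          have hs' : (s : ℝ) ≤ h := by exact_mod_cast (mem_range.1 hs).le
          push_cast
          have : (Q : ℝ) * s ≤ Q * h := mul_le_mul_of_nonneg_left hs' (Nat.cast_nonneg _)
          linarith
      _ = h * (2 * (Q * h)) := by rw [sum_const, card_range, nsmul_eq_mul]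
  have h2 : (h : ℝ) * (δ * L) ≤ h * ‖∑ x ∈ range n, f x‖ :=
    mul_le_mul_of_nonneg_left hs hh0.le
  have h3 : (h : ℝ) * (2 * (Q * h)) ≤ h * (δ * L / 2) :=
    mul_le_mul_of_nonneg_left (by linarith) hh0.le
  have h4 : (n : ℝ) * (δ / 2 * h) ≤ L * (δ / 2 * h) :=
    mul_le_mul_of_nonneg_right hn (by positivity)
  have h5 : L * (δ / 2 * h) = h * (δ * L) - h * (δ * L / 2) := by ring
  linarith

theorem piece (g : ℕ → ℝ) (z ε : ℝ) (b y : ℤ) (Q k h : ℕ) (hQ : 1 ≤ Q)
    (hε : ∀ s ∈ range h, 2 * Real.pi * (|z| * |((y : ℝ) + Q * (s : ℕ)) ^ k - (y : ℝ) ^ k|) ≤ ε) :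
    ‖∑ s ∈ range h, ee (((b : ℝ) / Q + z) * ((y : ℝ) + Q * (s : ℕ)) ^ k +
        g s)‖ ≤
      ‖∑ s ∈ range h, ee (g s)‖ + h * ε := by
  have hQ0 : (Q : ℝ) ≠ 0 := by positivity
  have key : ∀ s ∈ range h,
      ‖ee (((b : ℝ) / Q + z) * ((y : ℝ) + Q * (s : ℕ)) ^ k + g s) -
        ee (((b : ℝ) / Q + z) * (y : ℝ) ^ k) * ee (g s)‖ ≤ ε := by
    intro s hs
    obtain ⟨c, hc⟩ : ((y + Q * (s : ℕ) : ℤ) - y) ∣ (y + Q * (s : ℕ) : ℤ) ^ k - y ^ k :=
      sub_dvd_pow_sub_pow _ _ _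
    have hc' : ((y : ℝ) + Q * (s : ℕ)) ^ k = (y : ℝ) ^ k + Q * (s * c) := by
      have h1 : (y + Q * (s : ℕ) : ℤ) ^ k = y ^ k + Q * (s * c) := by
        have h2 : (y + Q * (s : ℕ) : ℤ) - y = Q * s := by ring
        rw [h2] at hc
        linear_combination hc
      exact_mod_cast h1
    have e1 : ((b : ℝ) / Q + z) * ((y : ℝ) + Q * (s : ℕ)) ^ k + g s =
        (b : ℝ) / Q * (y : ℝ) ^ k + ((b * (s * c) : ℤ) : ℝ) + z * ((y : ℝ) + Q * (s : ℕ)) ^ k +
          g s := by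
      rw [add_mul]
      nth_rewrite 1 [hc']
      push_cast
      field_simp
    have e2 : ee (((b : ℝ) / Q + z) * ((y : ℝ) + Q * (s : ℕ)) ^ k + g s) =
        ee ((b : ℝ) / Q * (y : ℝ) ^ k) * ee (z * ((y : ℝ) + Q * (s : ℕ)) ^ k) *
          ee (g s) := by
      rw [e1, ee_add, ee_add, ee_add, ee_int, mul_one]
    have e3 : ee (((b : ℝ) / Q + z) * (y : ℝ) ^ k) =
        ee ((b : ℝ) / Q * (y : ℝ) ^ k) * ee (z * (y : ℝ) ^ k) := by
      rw [add_mul, ee_add]
    have e4 : ee (((b : ℝ) / Q + z) * ((y : ℝ) + Q * (s : ℕ)) ^ k + g s) -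
        ee (((b : ℝ) / Q + z) * (y : ℝ) ^ k) * ee (g s) =
        ee ((b : ℝ) / Q * (y : ℝ) ^ k) *
          (ee (z * ((y : ℝ) + Q * (s : ℕ)) ^ k) - ee (z * (y : ℝ) ^ k)) *
            ee (g s) := by
      rw [e2, e3]; ring
    rw [e4, norm_mul, norm_mul, ee_norm, ee_norm, one_mul, mul_one]
    refine (ee_lip _ _).trans ?_
    rw [← mul_sub, abs_mul]
    exact hε s hs
  have h1 : ∑ s ∈ range h, ee (((b : ℝ) / Q + z) * ((y : ℝ) + Q * (s : ℕ)) ^ k +
        g s) =
      ee (((b : ℝ) / Q + z) * (y : ℝ) ^ k) * ∑ s ∈ range h, ee (g s) +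
      ∑ s ∈ range h, (ee (((b : ℝ) / Q + z) * ((y : ℝ) + Q * (s : ℕ)) ^ k +
        g s) -
        ee (((b : ℝ) / Q + z) * (y : ℝ) ^ k) * ee (g s)) := by
    rw [sum_sub_distrib, mul_sum]; ring
  rw [h1]
  refine (norm_add_le _ _).trans (add_le_add ?_ ?_)
  · rw [norm_mul, ee_norm, one_mul]
  · refine (norm_sum_le _ _).trans ?_
    calc _ ≤ ∑ s ∈ range h, ε := sum_le_sum key
      _ = h * ε := by rw [sum_const, card_range, nsmul_eq_mul]

open Polynomial in
theorem poly (P : Polynomial ℝ) (j Q : ℕ) (y : ℝ) (hP : P.natDegree ≤ j + 1) (hQ : 1 ≤ Q) :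
    ∃ R : Polynomial ℝ, R.natDegree ≤ j ∧ R.coeff j = P.coeff j * (Q : ℝ) ^ j ∧
      ∀ s : ℝ, P.eval (y + Q * s) = P.coeff (j + 1) * (y + Q * s) ^ (j + 1) + R.eval s := by
  have hQ0 : (Q : ℝ) ≠ 0 := by positivity
  set R0 : Polynomial ℝ := P - C (P.coeff (j + 1)) * X ^ (j + 1) with hR0
  have h1 : R0.natDegree ≤ j := by
    rw [natDegree_le_iff_coeff_eq_zero]
    intro N hN
    rw [hR0, coeff_sub, coeff_C_mul, coeff_X_pow]
    by_cases h : N = j + 1
    · subst h; simp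
    · rw [if_neg h, mul_zero, sub_zero]
      exact coeff_eq_zero_of_natDegree_lt (by omega)
  have h2 : R0.coeff j = P.coeff j := by
    rw [hR0, coeff_sub, coeff_C_mul, coeff_X_pow, if_neg (by omega), mul_zero, sub_zero]
  have hl : (C (Q : ℝ) * X + C y).natDegree = 1 := natDegree_linear hQ0
  have hdeg : (R0.comp (C (Q : ℝ) * X + C y)).natDegree ≤ R0.natDegree := by
    refine natDegree_comp_le.trans ?_
    rw [hl, mul_one]
  refine ⟨R0.comp (C (Q : ℝ) * X + C y), hdeg.trans h1, ?_, ?_⟩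
  · rcases h1.lt_or_eq with h3 | h3
    · rw [← h2, coeff_eq_zero_of_natDegree_lt h3,
        coeff_eq_zero_of_natDegree_lt (hdeg.trans_lt h3), zero_mul]
    · have h4 := coeff_comp_degree_mul_degree (p := R0) (q := C (Q : ℝ) * X + C y)
        (by rw [hl]; exact one_ne_zero)
      rw [hl, mul_one, leadingCoeff_linear hQ0, leadingCoeff, h3, h2] at h4
      exact h4
  · intro s
    rw [eval_comp, hR0]
    simp only [eval_sub, eval_mul, eval_C, eval_pow, eval_X, eval_add]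
    rw [show (Q : ℝ) * s + y = y + Q * s by ring]
    ring

theorem bnd {c e B : ℕ} (hc : c ≤ B) (he : e ≤ B) {D : ℝ} (hD : 1 ≤ D) :
    (c : ℝ) * D ^ e ≤ B * D ^ B := by
  have h1 : (c : ℝ) ≤ B := by exact_mod_cast hc
  exact mul_le_mul h1 (pow_le_pow_right₀ hD he) (by positivity) (Nat.cast_nonneg _)

theorem main (j A A' : ℕ) (hj : 1 ≤ j) (hW : Weyl (j + 1) A) (hW' : Weyl j A') :
    ∃ B : ℕ, Weyl2 (j + 1) B := by
  have hA := hW.1
  have hA' := hW'.1
  set F : ℕ := (j + 1).factorial with hF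
  have hF1 : 1 ≤ F := Nat.factorial_pos _
  set E : ℕ := 32 * A * (4 ^ j * ((j + 1) * F)) with hE
  have hE1 : 1 ≤ E := by rw [hE]; exact Nat.one_le_iff_ne_zero.2 (by positivity)
  set B : ℕ := A' * 4 ^ A' * j.factorial * (A * F) ^ j + A' * 4 ^ A' * (2 * E) ^ j + E ^ j + A' +
    (A + 1) * j + 1 with hB
  refine ⟨B, by omega, ?_⟩
  intro P a n L δ hP hL hn ha1 ha2 hδ hδ1 hs
  rw [Nat.add_sub_cancel]
  set D : ℝ := 1 / δ with hD
  have hD1 : 1 ≤ D := by rw [hD, le_div_iff₀ hδ]; linarith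
  have hDδ : D * δ = 1 := by rw [hD]; field_simp
  have hD0 : 0 < D := by linarith
  have hL0 : 0 < L := by linarith
  have hAR : (1 : ℝ) ≤ A := by exact_mod_cast hA
  have hFR : (1 : ℝ) ≤ F := by exact_mod_cast hF1
  have hER : (1 : ℝ) ≤ E := by exact_mod_cast hE1
  obtain ⟨q0, hq0, hq0', hq0''⟩ := hW.2 P a n L δ hP hL hn hδ hδ1 hs
  set Q : ℕ := q0 * F with hQdef
  have hQ1 : 1 ≤ Q := Nat.mul_pos hq0 hF1
  have hQR : (1 : ℝ) ≤ Q := by exact_mod_cast hQ1
  set α : ℝ := P.coeff (j + 1) with hα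
  set z : ℝ := α - (round (Q * α) : ℝ) / Q with hz
  have hQz : (Q : ℝ) * |z| ≤ A * D ^ A / L ^ (j + 1) := by
    have h1 : (Q : ℝ) * |z| = dn (q0 * ((F : ℝ) * α)) := by
      unfold dn
      have h2 : (q0 : ℝ) * ((F : ℝ) * α) = Q * α := by rw [hQdef]; push_cast; ring
      rw [h2, ← abs_of_pos (by linarith : (0 : ℝ) < Q), ← abs_mul,
        abs_of_pos (by linarith : (0 : ℝ) < Q)]
      congr 1
      rw [hz]
      field_simp
    rw [h1]
    exact hq0''
  have hQle : (Q : ℝ) ≤ A * D ^ A * F := by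
    rw [hQdef]; push_cast
    exact mul_le_mul_of_nonneg_right hq0' (by linarith)
  set t : ℝ := δ ^ (A + 1) * L / E with ht
  have hDt : D ^ (A + 1) * δ ^ (A + 1) = 1 := by rw [← mul_pow, hDδ, one_pow]
  have htE : D ^ (A + 1) * (E * t) = L := by
    have : (E : ℝ) * t = δ ^ (A + 1) * L := by rw [ht]; field_simp
    rw [this, ← mul_assoc, hDt, one_mul]
  by_cases ht1 : t < 1
  · -- `L` is small
    have hLs : L ≤ E * D ^ (A + 1) := by
      rw [← htE]
      have : (E : ℝ) * t ≤ E := by nlinarith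
      calc D ^ (A + 1) * (E * t) ≤ D ^ (A + 1) * E :=
            mul_le_mul_of_nonneg_left this (by positivity)
        _ = _ := by ring
    refine ⟨1, le_rfl, ?_, ?_⟩
    · have := bnd (c := 1) (e := 0) (B := B) (by omega) (by omega) hD1
      simpa using this
    · have h1 : L ^ j ≤ B * D ^ B := by
        calc L ^ j ≤ (E * D ^ (A + 1)) ^ j := pow_le_pow_left₀ hL0.le hLs _
          _ = ((E ^ j : ℕ) : ℝ) * D ^ ((A + 1) * j) := by push_cast; rw [mul_pow, pow_mul]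
          _ ≤ B * D ^ B := bnd (by omega) (by omega) hD1
      have h2 : dn ((1 : ℕ) * P.coeff j) ≤ 1 := by
        unfold dn
        exact (abs_sub_round _).trans (by norm_num)
      refine h2.trans ?_
      rw [le_div_iff₀ (by positivity), one_mul]
      exact h1
  · rw [not_lt] at ht1
    set h : ℕ := ⌊t⌋₊ with hh
    have ht0 : 0 ≤ t := by linarith
    have hh1 : 1 ≤ h := (Nat.one_le_floor_iff t).2 ht1
    have hhR : (1 : ℝ) ≤ h := by exact_mod_cast hh1
    have hht : (h : ℝ) ≤ t := Nat.floor_le ht0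
    have hth : t ≤ 2 * h := by
      have := Nat.lt_floor_add_one t
      linarith
    -- `D ^ A * t` in terms of `δ L`
    have hDAt : (E : ℝ) * (D ^ A * t) = δ * L := by
      have h1 : D ^ (A + 1) * (E * t) * δ = L * δ := by rw [htE]
      have h2 : D ^ (A + 1) * (E * t) * δ = (D * δ) * ((E : ℝ) * (D ^ A * t)) := by ring
      rw [h2, hDδ, one_mul] at h1
      linarith
    have hEval : (E : ℝ) = 32 * A * (4 ^ j * (((j : ℝ) + 1) * F)) := by
      rw [hE]; push_cast; ring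
    have h4j : (1 : ℝ) ≤ 4 ^ j := one_le_pow₀ (by norm_num)
    have hj1 : (1 : ℝ) ≤ (j : ℝ) + 1 := by linarith [(Nat.cast_nonneg j : (0 : ℝ) ≤ j)]
    have hDAt0 : 0 ≤ D ^ A * t := by positivity
    have hQh : 4 * ((Q : ℝ) * h) ≤ δ * L := by
      rw [← hDAt]
      have h1 : (Q : ℝ) * h ≤ A * D ^ A * F * t :=
        mul_le_mul hQle hht (by positivity) (by positivity)
      have h2 : 4 * (A * D ^ A * F * t) = (4 * (A * F)) * (D ^ A * t) := by ring
      have h3 : 4 * ((A : ℝ) * F) ≤ E := by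
        rw [hEval]
        have h5 : (1 : ℝ) ≤ 4 ^ j * ((j : ℝ) + 1) := one_le_mul_of_one_le_of_one_le h4j hj1
        have h6 : 0 < (A : ℝ) * F := by positivity
        calc 4 * ((A : ℝ) * F) ≤ 32 * (A * F) * 1 := by linarith
          _ ≤ 32 * (A * F) * (4 ^ j * ((j : ℝ) + 1)) :=
            mul_le_mul_of_nonneg_left h5 (by positivity)
          _ = _ := by ring
      calc 4 * ((Q : ℝ) * h) ≤ 4 * (A * D ^ A * F * t) := by linarith
        _ = (4 * (A * F)) * (D ^ A * t) := h2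
        _ ≤ E * (D ^ A * t) := mul_le_mul_of_nonneg_right h3 hDAt0
    obtain ⟨x, hx, hx2⟩ := avg (fun x => ee (P.eval ((a : ℝ) + x))) (fun x => (ee_norm _).le)
      n h Q L δ hδ hL0 hn hh1 hQh hs
    have hxn : (x : ℝ) ≤ n := by exact_mod_cast (mem_range.1 hx).le
    set y : ℤ := a + x with hy
    have hyR : (y : ℝ) = a + x := by rw [hy]; push_cast; ring
    obtain ⟨R, hR1, hR2, hR3⟩ := poly P j Q (y : ℝ) hP hQ1
    have hyL : |(y : ℝ)| ≤ 4 * L := by
      rw [abs_le, hyR]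
      have : (0 : ℝ) ≤ x := Nat.cast_nonneg _
      constructor <;> linarith
    have hQhL : (Q : ℝ) * h ≤ L := by nlinarith
    have hps := piece (fun s => R.eval (s : ℝ)) z (δ / 4) (round (Q * α)) y Q (j + 1) h hQ1 (by
      intro s hs'
      have hsh : (s : ℝ) ≤ h := by exact_mod_cast (mem_range.1 hs').le
      have hQs : (Q : ℝ) * s ≤ Q * h := mul_le_mul_of_nonneg_left hsh (by linarith)
      have hQs0 : 0 ≤ (Q : ℝ) * s := by positivity
      have hu : |(y : ℝ) + Q * (s : ℕ)| ≤ 4 * L := by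
        rw [abs_le, hyR]
        have : (0 : ℝ) ≤ x := Nat.cast_nonneg _
        constructor <;> linarith
      have h1 := abs_pow_sub_pow_le ((y : ℝ) + Q * (s : ℕ)) (y : ℝ) (j + 1)
      rw [Nat.add_sub_cancel, add_sub_cancel_left, abs_of_nonneg hQs0] at h1
      have h2 : |((y : ℝ) + Q * (s : ℕ)) ^ (j + 1) - (y : ℝ) ^ (j + 1)| ≤
          (Q * h) * ((j + 1 : ℕ) : ℝ) * (4 * L) ^ j := by
        refine h1.trans ?_
        refine mul_le_mul (mul_le_mul_of_nonneg_right hQs (Nat.cast_nonneg _))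
          (pow_le_pow_left₀ (le_max_of_le_left (abs_nonneg _)) (max_le hu hyL) _)
          (by positivity) (by positivity)
      have h3 : |z| * |((y : ℝ) + Q * (s : ℕ)) ^ (j + 1) - (y : ℝ) ^ (j + 1)| ≤
          (A * D ^ A / L ^ (j + 1)) * (h * ((j + 1 : ℕ) : ℝ) * (4 * L) ^ j) := by
        calc |z| * |((y : ℝ) + Q * (s : ℕ)) ^ (j + 1) - (y : ℝ) ^ (j + 1)|
            ≤ |z| * ((Q * h) * ((j + 1 : ℕ) : ℝ) * (4 * L) ^ j) :=
              mul_le_mul_of_nonneg_left h2 (abs_nonneg _)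
          _ = (Q * |z|) * (h * ((j + 1 : ℕ) : ℝ) * (4 * L) ^ j) := by ring
          _ ≤ _ := mul_le_mul_of_nonneg_right hQz (by positivity)
      have h4 : (A * D ^ A / L ^ (j + 1)) * (h * ((j + 1 : ℕ) : ℝ) * (4 * L) ^ j) =
          A * (4 ^ j * ((j : ℝ) + 1)) * (D ^ A * h) / L := by
        push_cast
        rw [mul_pow, pow_succ L j]
        field_simp
      have h5 : A * (4 ^ j * ((j : ℝ) + 1)) * (D ^ A * h) / L ≤ δ / 32 := by
        rw [div_le_iff₀ hL0]
        have h6 : A * (4 ^ j * ((j : ℝ) + 1)) * (D ^ A * h) ≤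
            A * (4 ^ j * ((j : ℝ) + 1)) * (D ^ A * t) :=
          mul_le_mul_of_nonneg_left (mul_le_mul_of_nonneg_left hht (by positivity))
            (by positivity)
        have h7 : 32 * (A * (4 ^ j * ((j : ℝ) + 1)) * (D ^ A * t)) ≤ E * (D ^ A * t) := by
          rw [hEval, ← mul_assoc]
          refine mul_le_mul_of_nonneg_right ?_ hDAt0
          have h8 : 32 * A * (4 ^ j * (((j : ℝ) + 1) * F)) =
              32 * (A * (4 ^ j * ((j : ℝ) + 1))) * F := by ring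
          rw [h8]
          exact le_mul_of_one_le_right (by positivity) hFR
        rw [hDAt] at h7
        linarith
      have hpi : 2 * Real.pi ≤ 8 := by linarith [Real.pi_le_four]
      have h9 : |z| * |((y : ℝ) + Q * (s : ℕ)) ^ (j + 1) - (y : ℝ) ^ (j + 1)| ≤ δ / 32 :=
        h3.trans (h4.le.trans h5)
      calc 2 * Real.pi * (|z| * |((y : ℝ) + Q * (s : ℕ)) ^ (j + 1) - (y : ℝ) ^ (j + 1)|)
          ≤ 8 * (δ / 32) := mul_le_mul hpi h9 (by positivity) (by norm_num)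
        _ = δ / 4 := by ring)
    have hbz : (round (Q * α) : ℝ) / Q + z = α := by rw [hz]; ring
    have hsum : ∑ s ∈ range h, ee (P.eval ((a : ℝ) + ((x + Q * s : ℕ) : ℝ))) =
        ∑ s ∈ range h, ee (((round (Q * α) : ℝ) / Q + z) * ((y : ℝ) + Q * (s : ℕ)) ^ (j + 1) +
          R.eval (s : ℝ)) := by
      refine sum_congr rfl fun s _ => ?_
      rw [hbz, ← hR3, hyR]
      congr 2
      push_cast
      ring
    have hx3 : δ / 2 * h ≤ ‖∑ s ∈ range h, ee (P.eval ((a : ℝ) + ((x + Q * s : ℕ) : ℝ)))‖ := hx2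
    rw [hsum] at hx3
    have hR4 : δ / 4 * h ≤ ‖∑ s ∈ range h, ee (R.eval (((0 : ℤ) : ℝ) + s))‖ := by
      have h1 : ∑ s ∈ range h, ee (R.eval (((0 : ℤ) : ℝ) + s)) =
          ∑ s ∈ range h, ee (R.eval (s : ℝ)) :=
        sum_congr rfl fun s _ => by rw [Int.cast_zero, zero_add]
      rw [h1]
      linarith
    obtain ⟨q', hq', hq1, hq2⟩ := hW'.2 R 0 h h (δ / 4) hR1 hhR le_rfl (by linarith)
      (by linarith) hR4
    have hD4 : 1 / (δ / 4) = 4 * D := by rw [hD]; field_simp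
    rw [hD4] at hq1 hq2
    refine ⟨q' * (j.factorial * Q ^ j), ?_, ?_, ?_⟩
    · exact Nat.mul_pos hq' (Nat.mul_pos (Nat.factorial_pos _) (Nat.pow_pos hQ1))
    · have h1 : (Q : ℝ) ^ j ≤ (A * D ^ A * F) ^ j := pow_le_pow_left₀ (by linarith) hQle _
      calc ((q' * (j.factorial * Q ^ j) : ℕ) : ℝ) = q' * (j.factorial * (Q : ℝ) ^ j) := by
            push_cast; ring
        _ ≤ (A' * (4 * D) ^ A') * (j.factorial * (A * D ^ A * F) ^ j) :=
            mul_le_mul hq1 (mul_le_mul_of_nonneg_left h1 (Nat.cast_nonneg _)) (by positivity)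
              (by positivity)
        _ = ((A' * 4 ^ A' * j.factorial * (A * F) ^ j : ℕ) : ℝ) * D ^ (A' + A * j) := by
            push_cast
            rw [pow_add, pow_mul, mul_pow, mul_pow, mul_pow, mul_pow]
            ring
        _ ≤ B * D ^ B := bnd (by omega) (by
            have : A * j ≤ (A + 1) * j := Nat.mul_le_mul_right _ (by omega)
            omega) hD1
    · have h1 : ((q' * (j.factorial * Q ^ j) : ℕ) : ℝ) * P.coeff j =
          q' * ((j.factorial : ℝ) * R.coeff j) := by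
        rw [hR2]; push_cast; ring
      rw [h1]
      refine hq2.trans ?_
      have hh0 : (0 : ℝ) < h := by linarith
      rw [div_le_div_iff₀ (by positivity) (by positivity)]
      have h2 : L ≤ (2 * E * D ^ (A + 1)) * h := by
        rw [← htE]
        have h3 : (E : ℝ) * t ≤ E * (2 * h) := mul_le_mul_of_nonneg_left hth (by linarith)
        calc D ^ (A + 1) * (E * t) ≤ D ^ (A + 1) * (E * (2 * h)) :=
              mul_le_mul_of_nonneg_left h3 (by positivity)
          _ = _ := by ring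
      calc A' * (4 * D) ^ A' * L ^ j ≤ A' * (4 * D) ^ A' * ((2 * E * D ^ (A + 1)) * h) ^ j :=
            mul_le_mul_of_nonneg_left (pow_le_pow_left₀ hL0.le h2 _) (by positivity)
        _ = ((A' * 4 ^ A' * (2 * E) ^ j : ℕ) : ℝ) * D ^ (A' + (A + 1) * j) * (h : ℝ) ^ j := by
            have h4 : D ^ (A' + (A + 1) * j) = D ^ A' * (D ^ (A + 1)) ^ j := by
              rw [pow_add, pow_mul]
            rw [h4, mul_pow _ (h : ℝ), mul_pow _ (D ^ (A + 1)), mul_pow 4 D]
            push_cast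
            ring
        _ ≤ B * D ^ B * (h : ℝ) ^ j :=
            mul_le_mul_of_nonneg_right (bnd (by omega) (by omega) hD1) (by positivity)

theorem ks_W2 : T_W2 := by
  intro k A A' hk hW hW'
  obtain ⟨j, rfl⟩ : ∃ j, k = j + 1 := ⟨k - 1, by omega⟩
  exact main j A A' (by omega) hW (by simpa using hW')

end Pool.Agent.H66.KS
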