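import Pool.Agent.H98.KS.Targets3

/-! SP: product kernels. -/

set_option autoImplicit false

open scoped BigOperators
open Pool.Agent.H98.KS

noncomputable section

namespace Pool.Agent.H66.KS.SP

theorem ee_add (x y : ℝ) : ee (x + y) = ee x * ee y := by
  unfold ee
  rw [← Complex.exp_add]
  congr 1
  push_cast
  ring

theorem ee_zero : ee 0 = 1 := by
  unfold ee
  simp

theorem ee_sum {ι : Type*} (s : Finset ι) (f : ι → ℝ) :
    ee (∑ i ∈ s, f i) = ∏ i ∈ s, ee (f i) := by
  classical
  induction s using Finset.induction_on with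
  | empty => rw [Finset.sum_empty, Finset.prod_empty, ee_zero]
  | insert a s ha ih => rw [Finset.sum_insert ha, Finset.prod_insert ha, ee_add, ih]

theorem ks_SP : T_SP := by
  intro d R g ξ
  unfold ft bx
  rw [Finset.prod_univ_sum]
  refine Finset.sum_congr rfl fun y _ => ?_
  rw [← Finset.sum_neg_distrib, ee_sum, ← Finset.prod_mul_distrib]

end Pool.Agent.H66.KS.SP
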